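import Mathlib

open Set Polynomial

namespace Pool.Agent.Results.MP_512501_an.Counter

def D (u b : ℕ) : ℕ := if b ≤ u then u + 1 - b else b - u

def B (u : ℕ) : ℕ :=
  D u 0 ^ 2 * D u 25 * D u 50 * D u 100 * D u 200 ^ 2 * D u 350 * D u 670 ^ 32

def chk : Bool := (List.range 1000).all fun u => decide (B u ≤ B 999)

lemma chk_true : chk = true := by decide +kernel

lemma hD (u b : ℕ) {y : ℝ} (h1 : (u : ℝ) ≤ y) (h2 : y ≤ u + 1) : |y - b| ≤ D u b := by
  unfold D
  split_ifs with h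
  · have h' : (b : ℝ) ≤ u := by exact_mod_cast h
    rw [Nat.cast_sub (by omega), abs_le]
    push_cast
    constructor <;> linarith
  · have h' : (u : ℝ) + 1 ≤ b := by exact_mod_cast (show u + 1 ≤ b by omega)
    rw [Nat.cast_sub (by omega), abs_le]
    constructor <;> linarith

lemma bound {y : ℝ} (h0 : 0 ≤ y) (h1 : y ≤ 1000) :
    |y - (0 : ℕ)| ^ 2 * |y - (25 : ℕ)| * |y - (50 : ℕ)| * |y - (100 : ℕ)| * |y - (200 : ℕ)| ^ 2 *
      |y - (350 : ℕ)| * |y - (670 : ℕ)| ^ 32 ≤ (B 999 : ℕ) := by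
  obtain ⟨u, hu, a1, a2⟩ : ∃ u : ℕ, u < 1000 ∧ (u : ℝ) ≤ y ∧ y ≤ u + 1 := by
    rcases h1.lt_or_eq with h | h
    · exact ⟨⌊y⌋₊, (Nat.floor_lt h0).2 (by exact_mod_cast h), Nat.floor_le h0,
        (Nat.lt_floor_add_one y).le⟩
    · exact ⟨999, by norm_num, by rw [h]; norm_num, by rw [h]; norm_num⟩
  have hb : B u ≤ B 999 := by
    have := List.all_eq_true.1 chk_true u (List.mem_range.2 hu)
    exact of_decide_eq_true this
  refine le_trans ?_ (Nat.cast_le.2 hb)
  unfold B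
  simp only [Nat.cast_mul, Nat.cast_pow]
  gcongr <;> exact hD u _ a1 a2

noncomputable def Q0 : ℝ[X] :=
  (X + 1) ^ 2 * (X + C (19 / 20)) * (X + C (9 / 10)) * (X + C (4 / 5)) * (X + C (3 / 5)) ^ 2 *
    (X + C (3 / 10)) * (X - C (17 / 50)) ^ 32

theorem result : ∃ (Q : ℝ[X]) (c : ℝ) (s : Multiset ℝ), c ≠ 0 ∧ s ≠ 0 ∧
    (∀ a ∈ s, a ∈ Icc (-1 : ℝ) 1) ∧ Q = C c * (s.map fun a => X - C a).prod ∧
    (∀ x ∈ Icc (-1 : ℝ) 1, |Q.eval x| ≤ |Q.eval 1|) ∧
    ∃ x₀ ∈ Ioo (-1 : ℝ) 1,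
      max |(derivative Q).eval (-1)| |(derivative Q).eval 1| < |(derivative Q).eval x₀| := by
  refine ⟨Q0, 1, {-1, -1, -(19 / 20), -(9 / 10), -(4 / 5), -(3 / 5), -(3 / 5), -(3 / 10)} +
    Multiset.replicate 32 (17 / 50), one_ne_zero, by simp, ?_, ?_, ?_, -991 / 1000,
    by norm_num, ?_⟩
  · intro a ha
    simp only [Multiset.mem_add, Multiset.insert_eq_cons, Multiset.mem_cons, Multiset.mem_singleton,
      Multiset.mem_replicate] at ha
    rcases ha with (h | h | h | h | h | h | h | h) | ⟨-, h⟩ <;> rw [h] <;> norm_num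
  · simp only [Multiset.map_add, Multiset.prod_add, Multiset.map_replicate,
      Multiset.prod_replicate, Multiset.insert_eq_cons, Multiset.map_cons, Multiset.prod_cons,
      Multiset.map_singleton, Multiset.prod_singleton, Q0, map_neg, map_one, sub_neg_eq_add]
    generalize (X - C (17 / 50 : ℝ)) ^ 32 = W
    ring
  · intro x hx
    have := bound (y := 500 * (x + 1)) (by linarith [hx.1]) (by linarith [hx.2])
    have e : ∀ x : ℝ, |Q0.eval x| * 500 ^ 40 =
        |500 * (x + 1) - (0 : ℕ)| ^ 2 * |500 * (x + 1) - (25 : ℕ)| * |500 * (x + 1) - (50 : ℕ)| *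
        |500 * (x + 1) - (100 : ℕ)| * |500 * (x + 1) - (200 : ℕ)| ^ 2 *
        |500 * (x + 1) - (350 : ℕ)| * |500 * (x + 1) - (670 : ℕ)| ^ 32 := by
      intro x
      have f : ∀ (b : ℕ) (t : ℝ), 500 * (x + 1) - b = 500 * t → |500 * (x + 1) - b| = 500 * |t| :=
        fun b t h => by rw [h, abs_mul]; norm_num
      rw [f 0 (x + 1) (by push_cast; ring), f 25 (x + 19 / 20) (by push_cast; ring),
        f 50 (x + 9 / 10) (by push_cast; ring), f 100 (x + 4 / 5) (by push_cast; ring),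
        f 200 (x + 3 / 5) (by push_cast; ring), f 350 (x + 3 / 10) (by push_cast; ring),
        f 670 (x - 17 / 50) (by push_cast; ring)]
      simp only [Q0, eval_mul, eval_pow, eval_add, eval_sub, eval_X, eval_C, eval_one, abs_mul,
        abs_pow]
      ring
    have e1 : |Q0.eval 1| * 500 ^ 40 = (B 999 : ℕ) := by
      rw [e]
      simp only [B, D]
      norm_num
    rw [← e, ← e1] at this
    exact le_of_mul_le_mul_right this (by positivity)
  · simp only [Q0, derivative_mul, derivative_pow, derivative_add, derivative_sub, derivative_X,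
      derivative_C, derivative_one, eval_mul, eval_pow, eval_add, eval_sub, eval_X, eval_C,
      eval_one, eval_zero]
    norm_num [abs_of_pos, abs_of_neg]

end Pool.Agent.Results.MP_512501_an.Counter
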